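import Mathlib

set_option autoImplicit false

namespace Pool.Agent.Results.MP_5b422c_co.NearLinear

open Cardinal Set

/-- The chromatic number of a possibly infinite graph: the least cardinality of a set of
colours which admits a proper vertex colouring. -/
noncomputable def cardChromatic {V : Type} (G : SimpleGraph V) : Cardinal.{0} :=
  sInf {κ : Cardinal.{0} | ∃ C : Type, #C = κ ∧ Nonempty (G.Coloring C)}

/-- `bipDeficiency G S` is the least number of edges whose deletion makes the subgraph of `G`
induced on the finite vertex set `S` bipartite. -/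
noncomputable def bipDeficiency {V : Type} (G : SimpleGraph V) (S : Finset V) : ℕ :=
  sInf {m : ℕ | ∃ D : Finset (Sym2 V), D.card = m ∧
    ((G.deleteEdges (D : Set (Sym2 V))).induce (S : Set V)).IsBipartite}

/-- `hG G n` is the maximum of `bipDeficiency G S` over the vertex sets `S` with `n` elements. -/
noncomputable def hG {V : Type} (G : SimpleGraph V) (n : ℕ) : ℕ :=
  sSup {b : ℕ | ∃ S : Finset V, S.card = n ∧ bipDeficiency G S = b}

/-! ### The finite bound -/

section Finite

open Classical

variable {V : Type}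

/-- the initial part and the final part of a tuple -/
def ini {k : ℕ} (e : Fin (k + 1) → V) : Fin k → V := fun i => e i.castSucc
/-- the final part of a tuple -/
def fin' {k : ℕ} (e : Fin (k + 1) → V) : Fin k → V := fun i => e i.succ

theorem fin_ini {k : ℕ} (e : Fin (k + 2) → V) : fin' (ini e) = ini (fin' e) := by
  funext i
  simp [fin', ini]

theorem ext_ini_fin {k : ℕ} {e e' : Fin (k + 2) → V} (h1 : ini e = ini e')
    (h2 : fin' e = fin' e') : e = e' := by
  funext i
  refine Fin.cases ?_ (fun i => ?_) i
  · exact congrFun h1 0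
  · exact congrFun h2 i

theorem sum_union_le' {ι : Type} [DecidableEq ι] (s t : Finset ι) (w : ι → ℕ) :
    ∑ i ∈ s ∪ t, w i ≤ ∑ i ∈ s, w i + ∑ i ∈ t, w i := by
  have := Finset.sum_union_inter (s₁ := s) (s₂ := t) (f := w)
  omega

theorem deficiency (k : ℕ) : ∀ (Z : Finset (Fin (k + 1) → V)) (E : Finset (Fin (k + 2) → V))
    (w : (Fin (k + 2) → V) → ℕ) (A B : (Fin (k + 1) → V) → ℕ) (Δ M : ℕ), 1 ≤ Δ →
    (∀ e ∈ E, ini e ∈ Z ∧ fin' e ∈ Z) →
    (∀ e ∈ E, w e ≤ A (ini e)) → (∀ e ∈ E, w e ≤ B (fin' e)) →
    (∑ z ∈ Z, A z ≤ M) → (∑ z ∈ Z, B z ≤ M) → Z.card ≤ Δ ^ (k + 1) →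
    ∃ τ : (Fin (k + 1) → V) → Bool,
      ∑ e ∈ E with τ (ini e) = τ (fin' e), w e ≤ (2 * k + 1) * Δ * M := by
  induction k with
  | zero =>
    intro Z E w A B Δ M hΔ hE hA hB hAM hBM hZ
    refine ⟨fun _ => true, ?_⟩
    calc ∑ e ∈ E with true = true, w e ≤ ∑ e ∈ E, w e := by
          apply Finset.sum_le_sum_of_subset
          exact Finset.filter_subset _ _
      _ ≤ ∑ e ∈ E, B (fin' e) := Finset.sum_le_sum hB
      _ = ∑ z ∈ Z, ∑ e ∈ E with fin' e = z, B (fin' e) := by
          rw [Finset.sum_fiberwise_of_maps_to (fun e he => (hE e he).2)]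
      _ ≤ ∑ z ∈ Z, Δ * B z := by
          apply Finset.sum_le_sum
          intro z hz
          have h1 : ∑ e ∈ E with fin' e = z, B (fin' e) = ∑ e ∈ E with fin' e = z, B z := by
            apply Finset.sum_congr rfl
            intro e he
            rw [(Finset.mem_filter.1 he).2]
          rw [h1, Finset.sum_const, smul_eq_mul]
          apply Nat.mul_le_mul_right
          have h2 : (E.filter (fun e => fin' e = z)).card ≤ Z.card := by
            apply Finset.card_le_card_of_injOn (fun e => ini e)
            · intro e he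
              exact (hE e (Finset.mem_filter.1 he).1).1
            · intro e he e' he' hee
              have he1 := (Finset.mem_filter.1 (Finset.mem_coe.1 he)).2
              have he2 := (Finset.mem_filter.1 (Finset.mem_coe.1 he')).2
              exact ext_ini_fin hee (he1.trans he2.symm)
          simpa using h2.trans hZ
      _ = Δ * ∑ z ∈ Z, B z := by rw [Finset.mul_sum]
      _ ≤ Δ * M := Nat.mul_le_mul_left _ hBM
      _ = (2 * 0 + 1) * Δ * M := by ring
  | succ k ih =>
    intro Z E w A B Δ M hΔ hE hA hB hAM hBM hZ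
    let inC : (Fin (k + 1) → V) → ℕ := fun y => (Z.filter (fun z => fin' z = y)).card
    let outC : (Fin (k + 1) → V) → ℕ := fun y => (Z.filter (fun z => ini z = y)).card
    let Y : Finset (Fin (k + 1) → V) :=
      (Z.image fin').filter (fun y => Δ < inC y ∧ Δ < outC y)
    have hYin : ∀ y, y ∉ Y → inC y ≤ Δ ∨ outC y ≤ Δ := by
      intro y hy
      by_contra hcon
      push Not at hcon
      apply hy
      refine Finset.mem_filter.2 ⟨?_, hcon⟩
      have : 0 < inC y := by omega
      obtain ⟨z, hz⟩ := Finset.card_pos.1 this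
      have hz' := Finset.mem_filter.1 hz
      exact Finset.mem_image.2 ⟨z, hz'.1, hz'.2⟩
    have hYcard : Y.card ≤ Δ ^ (k + 1) := by
      have h1 : Δ * Y.card ≤ Z.card := by
        calc Δ * Y.card = ∑ y ∈ Y, Δ := by rw [Finset.sum_const, smul_eq_mul, mul_comm]
          _ ≤ ∑ y ∈ Y, inC y := by
              apply Finset.sum_le_sum
              intro y hy
              exact (Finset.mem_filter.1 hy).2.1.le
          _ ≤ ∑ y ∈ Z.image fin', inC y := by
              apply Finset.sum_le_sum_of_subset
              exact Finset.filter_subset _ _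
          _ = Z.card := by
              rw [Finset.card_eq_sum_card_fiberwise (f := fin') (t := Z.image fin')]
              intro z hz
              exact Finset.mem_coe.2 (Finset.mem_image_of_mem _ hz)
      have h2 : Δ * Y.card ≤ Δ * Δ ^ (k + 1) := by
        refine h1.trans (hZ.trans (le_of_eq ?_))
        ring
      exact Nat.le_of_mul_le_mul_left h2 (by omega)
    let Z' : Finset (Fin (k + 2) → V) := Z.filter (fun z => ini z ∈ Y ∧ fin' z ∈ Y)
    let In : (Fin (k + 2) → V) → ℕ := fun z => ∑ e ∈ E with fin' e = z, w e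
    let Out : (Fin (k + 2) → V) → ℕ := fun z => ∑ e ∈ E with ini e = z, w e
    let w' : (Fin (k + 2) → V) → ℕ := fun z => min (In z) (Out z)
    let A' : (Fin (k + 1) → V) → ℕ := fun y => ∑ z ∈ Z with fin' z = y, A z
    let B' : (Fin (k + 1) → V) → ℕ := fun y => ∑ z ∈ Z with ini z = y, B z
    have hInA : ∀ z, In z ≤ A' (ini z) := by
      intro z
      calc In z = ∑ e ∈ E with fin' e = z, w e := rfl
        _ ≤ ∑ e ∈ E with fin' e = z, A (ini e) := by
            apply Finset.sum_le_sum
            intro e he
            exact hA e (Finset.mem_filter.1 he).1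
        _ = ∑ u ∈ (E.filter (fun e => fin' e = z)).image ini, A u := by
            rw [Finset.sum_image]
            intro e he e' he' hee
            have he1 := (Finset.mem_filter.1 (Finset.mem_coe.1 he)).2
            have he2 := (Finset.mem_filter.1 (Finset.mem_coe.1 he')).2
            exact ext_ini_fin hee (he1.trans he2.symm)
        _ ≤ A' (ini z) := by
            apply Finset.sum_le_sum_of_subset
            intro u hu
            obtain ⟨e, he, rfl⟩ := Finset.mem_image.1 hu
            have he' := Finset.mem_filter.1 he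
            refine Finset.mem_filter.2 ⟨(hE e he'.1).1, ?_⟩
            rw [fin_ini, he'.2]
    have hOutB : ∀ z, Out z ≤ B' (fin' z) := by
      intro z
      calc Out z = ∑ e ∈ E with ini e = z, w e := rfl
        _ ≤ ∑ e ∈ E with ini e = z, B (fin' e) := by
            apply Finset.sum_le_sum
            intro e he
            exact hB e (Finset.mem_filter.1 he).1
        _ = ∑ u ∈ (E.filter (fun e => ini e = z)).image fin', B u := by
            rw [Finset.sum_image]
            intro e he e' he' hee
            have he1 := (Finset.mem_filter.1 (Finset.mem_coe.1 he)).2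
            have he2 := (Finset.mem_filter.1 (Finset.mem_coe.1 he')).2
            exact ext_ini_fin (he1.trans he2.symm) hee
        _ ≤ B' (fin' z) := by
            apply Finset.sum_le_sum_of_subset
            intro u hu
            obtain ⟨e, he, rfl⟩ := Finset.mem_image.1 hu
            have he' := Finset.mem_filter.1 he
            refine Finset.mem_filter.2 ⟨(hE e he'.1).2, ?_⟩
            rw [← fin_ini, he'.2]
    obtain ⟨τ', hτ'⟩ := ih Y Z' w' A' B' Δ M hΔ
      (fun z hz => (Finset.mem_filter.1 hz).2)
      (fun z _ => (min_le_left _ _).trans (hInA z))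
      (fun z _ => (min_le_right _ _).trans (hOutB z))
      (by
        calc ∑ y ∈ Y, A' y ≤ ∑ y ∈ Z.image fin', A' y := by
              apply Finset.sum_le_sum_of_subset
              exact Finset.filter_subset _ _
          _ = ∑ z ∈ Z, A z := by
              rw [Finset.sum_fiberwise_of_maps_to]
              intro z hz
              exact Finset.mem_image_of_mem _ hz
          _ ≤ M := hAM)
      (by
        calc ∑ y ∈ Y, B' y ≤ ∑ y ∈ Y ∪ Z.image ini, B' y := by
              apply Finset.sum_le_sum_of_subset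
              exact Finset.subset_union_left
          _ = ∑ z ∈ Z, B z := by
              rw [Finset.sum_fiberwise_of_maps_to]
              intro z hz
              exact Finset.mem_union_right _ (Finset.mem_image_of_mem _ hz)
          _ ≤ M := hBM)
      hYcard
    -- the colouring
    let τ : (Fin (k + 2) → V) → Bool := fun z =>
      if fin' z ∈ Y then
        (if ini z ∈ Y ∧ τ' (ini z) = τ' (fin' z) ∧ Out z ≤ In z then ! τ' (ini z)
          else τ' (fin' z))
      else ! τ' (ini z)
    refine ⟨τ, ?_⟩
    -- three kinds of bad edges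
    let C : Finset (Fin (k + 2) → V) := Z'.filter (fun z => τ' (ini z) = τ' (fin' z))
    have hsub : E.filter (fun e => τ (ini e) = τ (fin' e)) ⊆
        (E.filter (fun e => inC (ini (fin' e)) ≤ Δ)) ∪ (E.filter (fun e => outC (ini (fin' e)) ≤ Δ)) ∪
        ((E.filter (fun e => ini e ∈ C ∧ Out (ini e) ≤ In (ini e))) ∪
        (E.filter (fun e => fin' e ∈ C ∧ ¬ (Out (fin' e) ≤ In (fin' e))))) := by
      intro e he
      obtain ⟨heE, heτ⟩ := Finset.mem_filter.1 he
      obtain ⟨hz1, hz2⟩ := hE e heE
      by_cases hy : ini (fin' e) ∈ Y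
      · have hy' : fin' (ini e) ∈ Y := by rw [fin_ini]; exact hy
        rw [Finset.mem_union]
        right
        rw [Finset.mem_union]
        by_contra hcon
        rw [not_or] at hcon
        obtain ⟨hc1, hc2⟩ := hcon
        have hc1' : ¬ (ini (ini e) ∈ Y ∧ τ' (ini (ini e)) = τ' (fin' (ini e)) ∧
            Out (ini e) ≤ In (ini e)) := by
          rintro ⟨a1, a2, a3⟩
          apply hc1
          refine Finset.mem_filter.2 ⟨heE, Finset.mem_filter.2 ⟨Finset.mem_filter.2 ⟨hz1, a1, hy'⟩, a2⟩, a3⟩
        have e1 : τ (ini e) = τ' (fin' (ini e)) := by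
          simp only [τ]
          rw [if_pos hy', if_neg hc1']
        have e2 : τ (fin' e) = ! τ' (ini (fin' e)) := by
          simp only [τ]
          by_cases hh : fin' (fin' e) ∈ Y
          · rw [if_pos hh]
            by_cases h2 : τ' (ini (fin' e)) = τ' (fin' (fin' e))
            · have h3 : Out (fin' e) ≤ In (fin' e) := by
                by_contra h4
                apply hc2
                exact Finset.mem_filter.2 ⟨heE, Finset.mem_filter.2
                  ⟨Finset.mem_filter.2 ⟨hz2, hy, hh⟩, h2⟩, h4⟩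
              rw [if_pos ⟨hy, h2, h3⟩]
            · rw [if_neg (fun h => h2 h.2.1)]
              revert h2
              cases τ' (ini (fin' e)) <;> cases τ' (fin' (fin' e)) <;> simp
          · rw [if_neg hh]
        rw [e1, e2, fin_ini] at heτ
        revert heτ
        cases τ' (ini (fin' e)) <;> simp
      · rw [Finset.mem_union]
        left
        rw [Finset.mem_union]
        rcases hYin _ hy with h | h
        · left; exact Finset.mem_filter.2 ⟨heE, h⟩
        · right; exact Finset.mem_filter.2 ⟨heE, h⟩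
    have b1 : ∑ e ∈ E with inC (ini (fin' e)) ≤ Δ, w e ≤ Δ * M := by
      calc ∑ e ∈ E with inC (ini (fin' e)) ≤ Δ, w e
          ≤ ∑ e ∈ E with inC (ini (fin' e)) ≤ Δ, B (fin' e) :=
            Finset.sum_le_sum (fun e he => hB e (Finset.mem_filter.1 he).1)
        _ = ∑ z ∈ Z, ∑ e ∈ (E.filter (fun e => inC (ini (fin' e)) ≤ Δ)) with fin' e = z,
              B (fin' e) := by
            rw [Finset.sum_fiberwise_of_maps_to]
            intro e he
            exact (hE e (Finset.mem_filter.1 he).1).2
        _ ≤ ∑ z ∈ Z, Δ * B z := by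
            apply Finset.sum_le_sum
            intro z hz
            have h1 : ∑ e ∈ (E.filter (fun e => inC (ini (fin' e)) ≤ Δ)) with fin' e = z,
                B (fin' e) = ∑ e ∈ (E.filter (fun e => inC (ini (fin' e)) ≤ Δ)) with fin' e = z,
                B z := by
              apply Finset.sum_congr rfl
              intro e he
              rw [(Finset.mem_filter.1 he).2]
            rw [h1, Finset.sum_const, smul_eq_mul]
            apply Nat.mul_le_mul_right
            by_cases hΔz : inC (ini z) ≤ Δ
            · refine le_trans ?_ hΔz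
              apply Finset.card_le_card_of_injOn (fun e => ini e)
              · intro e he
                have he1 := Finset.mem_filter.1 (Finset.mem_coe.1 he)
                have he2 := Finset.mem_filter.1 he1.1
                refine Finset.mem_coe.2 (Finset.mem_filter.2 ⟨(hE e he2.1).1, ?_⟩)
                rw [fin_ini, he1.2]
              · intro e he e' he' hee
                have he1 := (Finset.mem_filter.1 (Finset.mem_coe.1 he)).2
                have he2 := (Finset.mem_filter.1 (Finset.mem_coe.1 he')).2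
                exact ext_ini_fin hee (he1.trans he2.symm)
            · rw [Finset.card_eq_zero.2]
              · omega
              · rw [Finset.filter_eq_empty_iff]
                intro e he hez
                rw [← hez] at hΔz
                exact hΔz (Finset.mem_filter.1 he).2
        _ = Δ * ∑ z ∈ Z, B z := by rw [Finset.mul_sum]
        _ ≤ Δ * M := Nat.mul_le_mul_left _ hBM
    have b2 : ∑ e ∈ E with outC (ini (fin' e)) ≤ Δ, w e ≤ Δ * M := by
      calc ∑ e ∈ E with outC (ini (fin' e)) ≤ Δ, w e
          ≤ ∑ e ∈ E with outC (ini (fin' e)) ≤ Δ, A (ini e) :=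
            Finset.sum_le_sum (fun e he => hA e (Finset.mem_filter.1 he).1)
        _ = ∑ z ∈ Z, ∑ e ∈ (E.filter (fun e => outC (ini (fin' e)) ≤ Δ)) with ini e = z,
              A (ini e) := by
            rw [Finset.sum_fiberwise_of_maps_to]
            intro e he
            exact (hE e (Finset.mem_filter.1 he).1).1
        _ ≤ ∑ z ∈ Z, Δ * A z := by
            apply Finset.sum_le_sum
            intro z hz
            have h1 : ∑ e ∈ (E.filter (fun e => outC (ini (fin' e)) ≤ Δ)) with ini e = z,
                A (ini e) = ∑ e ∈ (E.filter (fun e => outC (ini (fin' e)) ≤ Δ)) with ini e = z,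
                A z := by
              apply Finset.sum_congr rfl
              intro e he
              rw [(Finset.mem_filter.1 he).2]
            rw [h1, Finset.sum_const, smul_eq_mul]
            apply Nat.mul_le_mul_right
            by_cases hΔz : outC (fin' z) ≤ Δ
            · refine le_trans ?_ hΔz
              apply Finset.card_le_card_of_injOn (fun e => fin' e)
              · intro e he
                have he1 := Finset.mem_filter.1 (Finset.mem_coe.1 he)
                have he2 := Finset.mem_filter.1 he1.1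
                refine Finset.mem_coe.2 (Finset.mem_filter.2 ⟨(hE e he2.1).2, ?_⟩)
                rw [← fin_ini, he1.2]
              · intro e he e' he' hee
                have he1 := (Finset.mem_filter.1 (Finset.mem_coe.1 he)).2
                have he2 := (Finset.mem_filter.1 (Finset.mem_coe.1 he')).2
                exact ext_ini_fin (he1.trans he2.symm) hee
            · rw [Finset.card_eq_zero.2]
              · omega
              · rw [Finset.filter_eq_empty_iff]
                intro e he hez
                rw [← hez, fin_ini] at hΔz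
                exact hΔz (Finset.mem_filter.1 he).2
        _ = Δ * ∑ z ∈ Z, A z := by rw [Finset.mul_sum]
        _ ≤ Δ * M := Nat.mul_le_mul_left _ hAM
    have b3 : ∑ e ∈ E with ini e ∈ C ∧ Out (ini e) ≤ In (ini e), w e
        ≤ ∑ z ∈ C with Out z ≤ In z, w' z := by
      calc ∑ e ∈ E with ini e ∈ C ∧ Out (ini e) ≤ In (ini e), w e
          = ∑ z ∈ C.filter (fun z => Out z ≤ In z),
            ∑ e ∈ (E.filter (fun e => ini e ∈ C ∧ Out (ini e) ≤ In (ini e))) with ini e = z, w e := by
            rw [Finset.sum_fiberwise_of_maps_to]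
            intro e he
            have := (Finset.mem_filter.1 he).2
            exact Finset.mem_filter.2 ⟨this.1, this.2⟩
        _ ≤ ∑ z ∈ C with Out z ≤ In z, w' z := by
            apply Finset.sum_le_sum
            intro z hz
            have h1 : w' z = Out z := min_eq_right (Finset.mem_filter.1 hz).2
            rw [h1]
            apply Finset.sum_le_sum_of_subset
            intro e he
            have he1 := Finset.mem_filter.1 he
            exact Finset.mem_filter.2 ⟨(Finset.mem_filter.1 he1.1).1, he1.2⟩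
    have b4 : ∑ e ∈ E with fin' e ∈ C ∧ ¬ (Out (fin' e) ≤ In (fin' e)), w e
        ≤ ∑ z ∈ C with ¬ (Out z ≤ In z), w' z := by
      calc ∑ e ∈ E with fin' e ∈ C ∧ ¬ (Out (fin' e) ≤ In (fin' e)), w e
          = ∑ z ∈ C.filter (fun z => ¬ (Out z ≤ In z)),
            ∑ e ∈ (E.filter (fun e => fin' e ∈ C ∧ ¬ (Out (fin' e) ≤ In (fin' e)))) with
              fin' e = z, w e := by
            rw [Finset.sum_fiberwise_of_maps_to]
            intro e he
            have := (Finset.mem_filter.1 he).2
            exact Finset.mem_filter.2 ⟨this.1, this.2⟩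
        _ ≤ ∑ z ∈ C with ¬ (Out z ≤ In z), w' z := by
            apply Finset.sum_le_sum
            intro z hz
            have h1 : w' z = In z := min_eq_left (not_le.1 (Finset.mem_filter.1 hz).2).le
            rw [h1]
            apply Finset.sum_le_sum_of_subset
            intro e he
            have he1 := Finset.mem_filter.1 he
            exact Finset.mem_filter.2 ⟨(Finset.mem_filter.1 he1.1).1, he1.2⟩
    have b34 : ∑ z ∈ C with Out z ≤ In z, w' z + ∑ z ∈ C with ¬ (Out z ≤ In z), w' z
        = ∑ z ∈ C, w' z := Finset.sum_filter_add_sum_filter_not _ _ _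
    calc ∑ e ∈ E with τ (ini e) = τ (fin' e), w e
        ≤ ∑ e ∈ (E.filter (fun e => inC (ini (fin' e)) ≤ Δ)) ∪
          (E.filter (fun e => outC (ini (fin' e)) ≤ Δ)) ∪
        ((E.filter (fun e => ini e ∈ C ∧ Out (ini e) ≤ In (ini e))) ∪
        (E.filter (fun e => fin' e ∈ C ∧ ¬ (Out (fin' e) ≤ In (fin' e))))), w e :=
          Finset.sum_le_sum_of_subset hsub
      _ ≤ (∑ e ∈ E with inC (ini (fin' e)) ≤ Δ, w e + ∑ e ∈ E with outC (ini (fin' e)) ≤ Δ, w e) +
          (∑ e ∈ E with ini e ∈ C ∧ Out (ini e) ≤ In (ini e), w e +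
            ∑ e ∈ E with fin' e ∈ C ∧ ¬ (Out (fin' e) ≤ In (fin' e)), w e) := by
          refine (sum_union_le' ..).trans ?_
          exact add_le_add (sum_union_le' ..) (sum_union_le' ..)
      _ ≤ (Δ * M + Δ * M) + (∑ z ∈ C with Out z ≤ In z, w' z +
            ∑ z ∈ C with ¬ (Out z ≤ In z), w' z) := by
          exact add_le_add (add_le_add b1 b2) (add_le_add b3 b4)
      _ ≤ (Δ * M + Δ * M) + (2 * k + 1) * Δ * M := by
          rw [b34]
          exact Nat.add_le_add_left hτ' _
      _ = (2 * (k + 1) + 1) * Δ * M := by ring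

end Finite

/-! ### The graphs -/

/-- iterated powersets of the set of colours -/
def Pw : ℕ → Type
  | 0 => ℕ
  | k + 1 => Set (Pw k)

/-- well-founded objects: an object is a leaf, or it remembers a family (indexed by the
sequences `s` with `s k ∈ Pw k`) of `(m+1)`-tuples of objects -/
inductive Nd (m : ℕ) : Type
  | leaf : Nd m
  | mk : (((k : ℕ) → Pw k) → Fin (m + 1) → Nd m) → Nd m

/-- `Child a b`: `a` is an entry of one of the tuples remembered by `b` -/
def Child {m : ℕ} (a b : Nd m) : Prop := ∃ lam s i, b = Nd.mk lam ∧ lam s i = a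

theorem child_wf (m : ℕ) : WellFounded (Child (m := m)) := by
  constructor
  intro b
  induction b with
  | leaf =>
    constructor
    rintro a ⟨lam, s, i, h, _⟩
    cases h
  | mk lam ih =>
    constructor
    rintro a ⟨lam', s, i, h, rfl⟩
    cases h
    exact ih s i

/-- the arcs of the graph -/
def Arc {m : ℕ} (x x' : Fin (m + 1) → Nd m) : Prop :=
  ∃ lam, x' (Fin.last m) = Nd.mk lam ∧ (∃ s, lam s = x) ∧ ini x' = fin' x ∧
    {y | (∃ s, lam s = y) ∧ fin' y = fin' x}.Countable

theorem arc_wf (m : ℕ) : WellFounded (Arc (m := m)) := by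
  apply Subrelation.wf (r := InvImage Child (fun x : Fin (m + 1) → Nd m => x (Fin.last m)))
  · rintro x x' ⟨lam, h1, ⟨s, hs⟩, _⟩
    exact ⟨lam, s, Fin.last m, h1, by rw [hs]⟩
  · exact InvImage.wf _ (child_wf m)

theorem arc_countable {m : ℕ} (x' : Fin (m + 1) → Nd m) : {x | Arc x x'}.Countable := by
  by_cases h : ∃ x, Arc x x'
  · obtain ⟨x, lam, h1, h2, h3, h4⟩ := h
    refine h4.mono ?_
    rintro y ⟨lam', g1, g2, g3, g4⟩
    rw [h1] at g1
    cases g1
    exact ⟨g2, g3.symm.trans h3⟩
  · have : {x | Arc x x'} = ∅ := by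
      ext x
      constructor
      · intro hx; exact (h ⟨x, hx⟩).elim
      · intro hx; exact hx.elim
    rw [this]
    exact Set.countable_empty

/-- the graph -/
def GG (m : ℕ) : SimpleGraph (Fin (m + 1) → Nd m) where
  Adj x y := Arc x y ∨ Arc y x
  symm := ⟨fun _ _ h => h.symm⟩
  loopless := ⟨fun x h => by
    have : ¬ Arc x x := fun h => (arc_wf m).irrefl.irrefl x h
    tauto⟩

/-- a colour set of size `ℵ₁` -/
abbrev W : Type := (ℵ₁).ord.ToType

theorem exists_coloring (m : ℕ) : Nonempty ((GG m).Coloring W) := by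
  classical
  have key : ∀ A : Set W, A.Countable → ∃ a, a ∉ A := by
    intro A hA
    by_contra hcon
    push Not at hcon
    have h1 : A = Set.univ := Set.eq_univ_of_forall hcon
    rw [h1, Set.countable_univ_iff] at hA
    have h2 : #W ≤ ℵ₀ := Cardinal.mk_le_aleph0_iff.2 hA
    have h3 : #W = ℵ₁ := by simp [W]
    rw [h3] at h2
    exact absurd h2 (not_le.2 Cardinal.aleph0_lt_aleph_one)
  choose pk hpk using key
  let F : (x' : Fin (m + 1) → Nd m) → ((x : Fin (m + 1) → Nd m) → Arc x x' → W) → W :=
    fun x' f => pk (Set.range (fun x : {x // Arc x x'} => f x.1 x.2)) (by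
      have : Countable {x // Arc x x'} := (arc_countable x').to_subtype
      exact Set.countable_range _)
  let col : (Fin (m + 1) → Nd m) → W := (arc_wf m).fix F
  have hcol : ∀ x x', Arc x x' → col x ≠ col x' := by
    intro x x' h heq
    have h1 : col x' = F x' (fun y _ => col y) := (arc_wf m).fix_eq F x'
    have h2 := hpk (Set.range (fun y : {y // Arc y x'} => col y.1)) (by
      have : Countable {x // Arc x x'} := (arc_countable x').to_subtype
      exact Set.countable_range _)
    apply h2
    refine ⟨⟨x, h⟩, ?_⟩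
    exact heq.trans h1
  refine ⟨SimpleGraph.Coloring.mk col ?_⟩
  intro x y h
  rcases h with h | h
  · exact hcol x y h
  · exact (hcol y x h).symm

/-- tuples from lists -/
def tup {m : ℕ} (l : List (Nd m)) : Fin (m + 1) → Nd m := fun i => l.getD i Nd.leaf

section Diag

variable {m : ℕ} (c : (Fin (m + 1) → Nd m) → ℕ)

/-- the iterated set of colours of the extensions of a list -/
def val : (k : ℕ) → List (Nd m) → Pw k
  | 0, l => c (tup l)
  | k + 1, l => Set.range (fun u => val k (u :: l))

open Classical in
/-- choose an extension with a given value -/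
noncomputable def pick (k : ℕ) (l : List (Nd m)) (p : Pw k) : Nd m :=
  if h : ∃ u, val c k (u :: l) = p then h.choose else Nd.leaf

theorem pick_spec {k : ℕ} {l : List (Nd m)} {p : Pw k} (h : ∃ u, val c k (u :: l) = p) :
    val c k (pick c k l p :: l) = p := by
  unfold pick
  rw [dif_pos h]
  exact h.choose_spec

/-- going down along a sequence of values -/
noncomputable def down (s : (k : ℕ) → Pw k) : ℕ → List (Nd m) → List (Nd m)
  | 0, l => pick c 0 l (s 0) :: l
  | k + 1, l => down s k (pick c (k + 1) l (s (k + 1)) :: l)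

theorem down_congr {s s' : (k : ℕ) → Pw k} (k : ℕ) : ∀ l, (∀ i ≤ k, s i = s' i) →
    down c s k l = down c s' k l := by
  induction k with
  | zero =>
    intro l h
    simp only [down]
    rw [h 0 le_rfl]
  | succ k ih =>
    intro l h
    simp only [down]
    rw [h (k + 1) le_rfl]
    exact ih _ (fun i hi => h i (by omega))

theorem down_length (s : (k : ℕ) → Pw k) (k : ℕ) : ∀ l, (down c s k l).length = l.length + k + 1 := by
  induction k with
  | zero => intro l; simp [down]
  | succ k ih => intro l; simp only [down]; rw [ih]; simp; omega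

theorem down_eq (s : (k : ℕ) → Pw k) (k : ℕ) : ∀ l, down c s k l =
    pick c 0 (down c s k l).tail (s 0) :: (down c s k l).tail := by
  induction k with
  | zero => intro l; simp [down]
  | succ k ih => intro l; simp only [down]; exact ih _

theorem diag (w : Nd m) (k : ℕ) : ∀ l : List (Nd m), (∃ u, val c k (u :: l) = val c k (l ++ [w])) →
    ∃ s : (k : ℕ) → Pw k, c (tup (down c s k l)) = c (tup ((down c s k l).tail ++ [w])) := by
  induction k with
  | zero =>
    intro l h
    have h1 := pick_spec c h
    let s : (k : ℕ) → Pw k := fun k => match k with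
      | 0 => val c 0 (l ++ [w])
      | _ + 1 => (∅ : Set _)
    refine ⟨s, ?_⟩
    simp only [down, List.tail_cons]
    exact h1
  | succ k ih =>
    intro l h
    have h1 := pick_spec c h
    set u := pick c (k + 1) l (val c (k + 1) (l ++ [w])) with hu
    have h2 : ∃ u', val c k (u' :: (u :: l)) = val c k ((u :: l) ++ [w]) := by
      have h1' : Set.range (fun v => val c k (v :: u :: l)) =
          Set.range (fun v => val c k (v :: (l ++ [w]))) := h1
      have h3 : val c k ((u :: l) ++ [w]) ∈ Set.range (fun v => val c k (v :: (l ++ [w]))) :=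
        ⟨u, rfl⟩
      rw [← h1'] at h3
      obtain ⟨u', hu'⟩ := h3
      exact ⟨u', hu'⟩
    obtain ⟨s, hs⟩ := ih _ h2
    refine ⟨Function.update s (k + 1) (val c (k + 1) (l ++ [w])), ?_⟩
    have h4 : down c (Function.update s (k + 1) (val c (k + 1) (l ++ [w]))) (k + 1) l =
        down c s k (u :: l) := by
      simp only [down]
      rw [Function.update_self, ← hu]
      apply down_congr
      intro i hi
      rw [Function.update_of_ne (by omega)]
    rw [h4]
    exact hs

end Diag

theorem tup_arc {m : ℕ} (t : List (Nd m)) (ht : t.length = m) (u w : Nd m) :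
    ini (tup (t ++ [w])) = fin' (tup (u :: t)) ∧ tup (t ++ [w]) (Fin.last m) = w := by
  constructor
  · funext i
    have hi : (i : ℕ) < t.length := by rw [ht]; exact i.2
    simp only [ini, fin', tup, Fin.val_castSucc, Fin.val_succ, List.getD_cons_succ]
    rw [List.getD_append _ _ _ _ hi]
  · simp only [tup, Fin.val_last]
    rw [List.getD_append_right _ _ _ _ (by omega)]
    simp [ht]

theorem tup_inj {m : ℕ} {t t' : List (Nd m)} (ht : t.length = m) (ht' : t'.length = m)
    {u u' : Nd m} (h : fin' (tup (u :: t)) = fin' (tup (u' :: t'))) : t = t' := by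
  apply List.ext_getElem
  · rw [ht, ht']
  · intro i h1 h2
    have := congrFun h ⟨i, by omega⟩
    simp only [fin', tup, Fin.succ_mk, List.getD_cons_succ] at this
    rw [List.getD_eq_getElem _ _ h1, List.getD_eq_getElem _ _ h2] at this
    exact this

theorem not_countable_coloring {m : ℕ} (c : (Fin (m + 1) → Nd m) → ℕ) :
    ∃ x x', Arc x x' ∧ c x = c x' := by
  let lam : ((k : ℕ) → Pw k) → Fin (m + 1) → Nd m := fun s => tup (down c s m [])
  let w : Nd m := Nd.mk lam
  obtain ⟨s, hs⟩ := diag c w m [] ⟨w, rfl⟩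
  refine ⟨tup (down c s m []), tup ((down c s m []).tail ++ [w]), ?_, hs⟩
  have hlen : ∀ s, (down c s m []).tail.length = m := by
    intro s
    rw [List.length_tail, down_length]
    simp
  have heq := down_eq c s m []
  obtain ⟨g1, g2⟩ := tup_arc (down c s m []).tail (hlen s) (pick c 0 (down c s m []).tail (s 0)) w
  rw [← heq] at g1
  refine ⟨lam, g2, ⟨s, rfl⟩, g1, ?_⟩
  apply Set.Countable.mono (s₂ := Set.range (fun n : ℕ =>
    tup (pick c 0 (down c s m []).tail n :: (down c s m []).tail)))
  · rintro y ⟨⟨s', rfl⟩, hy⟩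
    refine ⟨s' 0, ?_⟩
    have heq' := down_eq c s' m []
    simp only [lam] at hy
    rw [heq, heq'] at hy
    have ht := tup_inj (hlen s') (hlen s) hy
    simp only [lam]
    conv_rhs => rw [heq', ht]
  · exact Set.countable_range _

theorem cardChromatic_GG (m : ℕ) : cardChromatic (GG m) = ℵ₁ := by
  apply le_antisymm
  · refine csInf_le' ⟨W, by simp [W], exists_coloring m⟩
  · refine le_csInf ⟨ℵ₁, W, by simp [W], exists_coloring m⟩ ?_
    rintro κ ⟨C, rfl, ⟨col⟩⟩
    by_contra hcon
    rw [not_le, Cardinal.lt_aleph_one_iff] at hcon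
    have : Countable C := Cardinal.mk_le_aleph0_iff.1 hcon
    obtain ⟨f, hf⟩ := Countable.exists_injective_nat C
    obtain ⟨x, x', h1, h2⟩ := not_countable_coloring (fun x => f (col x))
    exact col.valid (Or.inl h1 : (GG m).Adj x x') (hf h2)

/-! ### The deficiency of the graphs -/

theorem exists_del {m : ℕ} (S : Finset (Fin (m + 1) → Nd m)) (Δ : ℕ) (hΔ : 1 ≤ Δ)
    (hS : S.card ≤ Δ ^ (m + 1)) :
    ∃ D : Finset (Sym2 (Fin (m + 1) → Nd m)), D.card ≤ (2 * m + 1) * Δ * S.card ∧
      (((GG m).deleteEdges (D : Set (Sym2 _))).induce (S : Set _)).IsBipartite := by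
  classical
  let E : Finset (Fin (m + 2) → Nd m) :=
    ((S ×ˢ S).image (fun p => Fin.snoc (α := fun _ => Nd m) p.1 (p.2 (Fin.last m)))).filter
      (fun e => ini e ∈ S ∧ fin' e ∈ S)
  obtain ⟨τ, hτ⟩ := deficiency m S E (fun _ => 1) (fun _ => 1) (fun _ => 1) Δ S.card hΔ
    (fun e he => (Finset.mem_filter.1 he).2) (fun _ _ => le_rfl) (fun _ _ => le_rfl)
    (by simp) (by simp) hS
  let D : Finset (Sym2 (Fin (m + 1) → Nd m)) :=
    (E.filter (fun e => τ (ini e) = τ (fin' e))).image (fun e => s(ini e, fin' e))
  have hD : ∀ x x', x ∈ S → x' ∈ S → Arc x x' → s(x, x') ∉ D → τ x ≠ τ x' := by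
    rintro x x' hx hx' ⟨lam, h1, h2, h3, h4⟩ hn heq
    apply hn
    let e : Fin (m + 2) → Nd m := Fin.snoc (α := fun _ => Nd m) x (x' (Fin.last m))
    have e1 : ini e = x := by
      funext i
      simp [ini, e]
    have e2 : fin' e = x' := by
      funext i
      refine Fin.lastCases ?_ (fun i => ?_) i
      · simp only [fin', e, Fin.succ_last, Fin.snoc_last]
      · have g : ini x' i = fin' x i := congrFun h3 i
        simp only [ini, fin'] at g
        simp only [fin', e, Fin.succ_castSucc, Fin.snoc_castSucc]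
        exact g.symm
    refine Finset.mem_image.2 ⟨e, Finset.mem_filter.2 ⟨Finset.mem_filter.2 ⟨?_, ?_⟩, ?_⟩, ?_⟩
    · exact Finset.mem_image.2 ⟨(x, x'), Finset.mem_product.2 ⟨hx, hx'⟩, rfl⟩
    · rw [e1, e2]; exact ⟨hx, hx'⟩
    · rw [e1, e2]; exact heq
    · rw [e1, e2]
  refine ⟨D, ?_, ?_⟩
  · refine Finset.card_image_le.trans ?_
    simpa using hτ
  · refine ⟨SimpleGraph.Coloring.mk (fun x => if τ x.1 then 0 else 1) ?_⟩
    rintro ⟨x, hx⟩ ⟨y, hy⟩ hadj
    have hadj' : ((GG m).deleteEdges (D : Set (Sym2 _))).Adj x y := hadj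
    rw [SimpleGraph.deleteEdges_adj] at hadj'
    obtain ⟨ha, hn⟩ := hadj'
    have hne : τ x ≠ τ y := by
      rcases ha with ha | ha
      · exact hD x y hx hy ha hn
      · rw [Sym2.eq_swap] at hn
        exact (hD y x hy hx ha hn).symm
    show (if τ x then (0 : Fin 2) else 1) ≠ (if τ y then 0 else 1)
    revert hne
    cases τ x <;> cases τ y <;> simp

theorem bipDeficiency_le {m : ℕ} (S : Finset (Fin (m + 1) → Nd m)) (Δ : ℕ) (hΔ : 1 ≤ Δ)
    (hS : S.card ≤ Δ ^ (m + 1)) : bipDeficiency (GG m) S ≤ (2 * m + 1) * Δ * S.card := by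
  obtain ⟨D, hD1, hD2⟩ := exists_del S Δ hΔ hS
  have h : bipDeficiency (GG m) S ≤ D.card := Nat.sInf_le ⟨D, rfl, hD2⟩
  exact h.trans hD1

theorem hG_le (m n Δ : ℕ) (hΔ : 1 ≤ Δ) (hn : n ≤ Δ ^ (m + 1)) :
    hG (GG m) n ≤ (2 * m + 1) * Δ * n := by
  apply csSup_le'
  rintro b ⟨S, rfl, rfl⟩
  exact bipDeficiency_le S Δ hΔ hn

/-- For every `ε > 0` there is (in ZFC) a graph `G` of chromatic number exactly `ℵ₁` with
`h_G(n) ≪ n ^ (1 + ε)`; the last clause spells out what the bound on `h_G(n)` means. -/
theorem result : ∀ ε : ℝ, 0 < ε → ∃ (V : Type) (G : SimpleGraph V),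
    cardChromatic G = ℵ₁ ∧ ∃ C : ℝ, 0 < C ∧ ∀ᶠ n : ℕ in Filter.atTop,
      (hG G n : ℝ) ≤ C * (n : ℝ) ^ (1 + ε) ∧
      ∀ S : Finset V, S.card = n → ∃ D : Finset (Sym2 V), (D.card : ℝ) ≤ C * (n : ℝ) ^ (1 + ε) ∧
        ((G.deleteEdges (D : Set (Sym2 V))).induce (S : Set V)).IsBipartite := by
  intro ε hε
  obtain ⟨m, hm⟩ := exists_nat_gt (1 / ε)
  refine ⟨_, GG m, cardChromatic_GG m, 2 * (2 * m + 1), by positivity, ?_⟩
  filter_upwards [Filter.eventually_ge_atTop 1] with n hn
  have hn0 : (1 : ℝ) ≤ n := by exact_mod_cast hn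
  set q : ℝ := (n : ℝ) ^ (1 / ((m : ℝ) + 1)) with hq
  have hq1 : 1 ≤ q := Real.one_le_rpow hn0 (by positivity)
  have hqε : q ≤ (n : ℝ) ^ ε := by
    apply Real.rpow_le_rpow_of_exponent_le hn0
    have h1 : 1 / ε < (m : ℝ) + 1 := by linarith
    rw [div_lt_iff₀ hε] at h1
    rw [div_le_iff₀ (by positivity)]
    linarith
  have hΔ : 1 ≤ ⌈q⌉₊ := by
    rw [Nat.one_le_ceil_iff]
    linarith
  have hΔq : (⌈q⌉₊ : ℝ) ≤ 2 * q := by
    have := Nat.ceil_lt_add_one (a := q) (by linarith)
    linarith
  have hnΔ : n ≤ ⌈q⌉₊ ^ (m + 1) := by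
    have h1 : (n : ℝ) ≤ (⌈q⌉₊ : ℝ) ^ (m + 1) := by
      calc (n : ℝ) = q ^ (m + 1) := by
            rw [hq, ← Real.rpow_natCast, ← Real.rpow_mul (by linarith)]
            push_cast
            rw [one_div_mul_cancel (by positivity), Real.rpow_one]
        _ ≤ (⌈q⌉₊ : ℝ) ^ (m + 1) := by
            apply pow_le_pow_left₀ (by linarith)
            exact Nat.le_ceil q
    exact_mod_cast h1
  have hbound : (((2 * m + 1) * ⌈q⌉₊ * n : ℕ) : ℝ) ≤ 2 * (2 * m + 1) * (n : ℝ) ^ (1 + ε) := by
    push_cast
    rw [Real.rpow_add (by linarith), Real.rpow_one]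
    have h1 : (⌈q⌉₊ : ℝ) ≤ 2 * (n : ℝ) ^ ε := hΔq.trans (by linarith)
    calc (2 * (m : ℝ) + 1) * (⌈q⌉₊ : ℝ) * n ≤ (2 * (m : ℝ) + 1) * (2 * (n : ℝ) ^ ε) * n := by
          gcongr
      _ = 2 * (2 * m + 1) * ((n : ℝ) * (n : ℝ) ^ ε) := by ring
  refine ⟨?_, ?_⟩
  · refine le_trans ?_ hbound
    exact_mod_cast hG_le m n ⌈q⌉₊ hΔ hnΔ
  · intro S hS
    obtain ⟨D, hD1, hD2⟩ := exists_del S ⌈q⌉₊ hΔ (by rw [hS]; exact hnΔ)
    refine ⟨D, le_trans ?_ hbound, hD2⟩
    rw [hS] at hD1
    exact_mod_cast hD1

end Pool.Agent.Results.MP_5b422c_co.NearLinear
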